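import Pool.Agent.Y123.GN.E8

/-!
# Subtorsors for all tuples of fibres of families over number fields
-/

set_option autoImplicit false
set_option linter.unusedSectionVars false

open Matrix Module Filter Topology
open Pool.Agent.Y123.GN Pool.Agent.TH127.PT Pool.Agent.Y113 Pool.Agent.Y123.ST

namespace Run7.h309.AT

section stab

/-- **stability from relations of bounded degree over the rational numbers** -/
theorem stabG (m D : ℕ) : ∃ d : ℕ, ∀ (r₀ N : ℕ) (s : Fin N → ℕ), r₀ + ∑ q, s q ≤ m →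
    ∀ (C₀ : Matrix (Fin r₀) (Fin r₀) ℂ) (Z : ∀ q, Matrix (Fin (s q)) (Fin (s q)) ℂ)
      (𝒢 : ∀ q, Subgroup (Matrix (Fin (s q)) (Fin (s q)) ℂ)ˣ),
    (∀ g : ∀ q, (Matrix (Fin (s q)) (Fin (s q)) ℂ)ˣ, (∀ q, g q ∈ 𝒢 q) →
      Rl ⊥ d (EG C₀ Z) (EG 1 (fun q => (g q : Matrix (Fin (s q)) (Fin (s q)) ℂ)) * EG C₀ Z)) →
    ∀ K : Subfield ℂ, FiniteDimensional ℚ K → finrank ℚ K ≤ D →
    ∀ T : Set (Matrix (IG (Fin r₀) s) (IG (Fin r₀) s) ℂ), IsSubtorsor K T → EG C₀ Z ∈ T →
    ∀ g : ∀ q, (Matrix (Fin (s q)) (Fin (s q)) ℂ)ˣ, (∀ q, g q ∈ ⁅Ug (𝒢 q), Ug (𝒢 q)⁆) →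
      ∀ x ∈ T, EG 1 (fun q => (g q : Matrix (Fin (s q)) (Fin (s q)) ℂ)) * x ∈ T := by
  obtain ⟨d, -, hd⟩ := comm_all m D
  refine ⟨d, ?_⟩
  intro r₀ N s hm C₀ Z 𝒢 hRl K hKf hKD T hT hcT g hg
  have hcardm : Fintype.card (IG (Fin r₀) s) ≤ m := by
    rw [card_IG, Fintype.card_fin]
    exact hm
  have hrelG : ∀ g ∈ Ug (GG (Fin r₀) 𝒢), Rl ⊥ d (EG C₀ Z) (g * EG C₀ Z) := by
    intro g hg
    obtain ⟨g', hg', rfl⟩ := Ug_le _ hg
    exact hRl g' fun i => hg' i (Set.mem_univ i)
  obtain ⟨hcomm, -, -⟩ := hd (IG (Fin r₀) s) hcardm _ (GG (Fin r₀) 𝒢) hrelG K hKf hKD T hT hcT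
  refine all_blocksG fun q => ?_
  refine hcomm _ ?_
  have h6 : em (Fin r₀) q (g q) ∈ (⁅Ug (𝒢 q), Ug (𝒢 q)⁆ : Subgroup _).map (em (Fin r₀) q) := ⟨g q, hg q, rfl⟩
  rw [Subgroup.map_commutator] at h6
  exact Subgroup.commutator_mono em_Ug em_Ug h6

end stab

section gal

variable {n : ℕ}

/-- the value at `z` and `Y` of a polynomial in the entries of a matrix over `ℂ[z]` -/
noncomputable def rv (R : MvPolynomial (Fin n × Fin n) (Polynomial ℂ)) (z : ℂ) (Y : Matrix (Fin n) (Fin n) ℂ) : ℂ :=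
  MvPolynomial.eval₂ (Polynomial.evalRingHom z) (fun v => Y v.1 v.2) R

/-- `g P(z)` satisfies all relations near `0` which `P(z)` satisfies -/
def Prz (P : ℂ → Matrix (Fin n) (Fin n) ℂ) (g : Matrix (Fin n) (Fin n) ℂ) : Prop :=
  ∀ R : MvPolynomial (Fin n × Fin n) (Polynomial ℂ), (∀ᶠ z in 𝓝 0, rv R z (P z) = 0) →
    ∀ᶠ z in 𝓝 0, rv R z (g * P z) = 0

/-- the substitution `Y ↦ g Y` -/
noncomputable def sbz (g : Matrix (Fin n) (Fin n) ℂ) (R : MvPolynomial (Fin n × Fin n) (Polynomial ℂ)) :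
    MvPolynomial (Fin n × Fin n) (Polynomial ℂ) :=
  MvPolynomial.bind₁ (fun v => ∑ l, MvPolynomial.C (Polynomial.C (g v.1 l)) * MvPolynomial.X (l, v.2)) R

lemma rv_sbz (g : Matrix (Fin n) (Fin n) ℂ) (R : MvPolynomial (Fin n × Fin n) (Polynomial ℂ)) (z : ℂ)
    (Y : Matrix (Fin n) (Fin n) ℂ) : rv (sbz g R) z Y = rv R z (g * Y) := by
  unfold rv sbz
  rw [← MvPolynomial.coe_eval₂Hom, ← MvPolynomial.coe_eval₂Hom, MvPolynomial.eval₂Hom_bind₁]
  congr 2
  funext v
  rw [map_sum, Matrix.mul_apply]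
  refine Finset.sum_congr rfl fun l _ => ?_
  rw [map_mul, MvPolynomial.eval₂Hom_C, MvPolynomial.eval₂Hom_X']
  simp

lemma Prz_mul {P : ℂ → Matrix (Fin n) (Fin n) ℂ} {g h : Matrix (Fin n) (Fin n) ℂ} (hg : Prz P g) (hh : Prz P h) :
    Prz P (g * h) := by
  intro R hR
  have h1 := hg R hR
  have h2 := hh (sbz g R) (by
    filter_upwards [h1] with z hz
    rw [rv_sbz]
    exact hz)
  filter_upwards [h2] with z hz
  rw [rv_sbz] at hz
  rw [Matrix.mul_assoc]
  exact hz

/-- the group of the matrices which preserve the relations -/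
noncomputable def Gz (P : ℂ → Matrix (Fin n) (Fin n) ℂ) : Subgroup (Matrix (Fin n) (Fin n) ℂ)ˣ where
  carrier := {g | Prz P (g : Matrix (Fin n) (Fin n) ℂ) ∧
    Prz P ((g⁻¹ : (Matrix (Fin n) (Fin n) ℂ)ˣ) : Matrix (Fin n) (Fin n) ℂ)}
  mul_mem' := by
    rintro g h ⟨h1, h2⟩ ⟨h3, h4⟩
    refine ⟨?_, ?_⟩
    · rw [Units.val_mul]
      exact Prz_mul h1 h3
    · rw [_root_.mul_inv_rev, Units.val_mul]
      exact Prz_mul h4 h2
  one_mem' := by
    refine ⟨fun R hR => ?_, fun R hR => ?_⟩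
    · filter_upwards [hR] with z hz
      rw [Units.val_one, Matrix.one_mul]
      exact hz
    · filter_upwards [hR] with z hz
      rw [inv_one, Units.val_one, Matrix.one_mul]
      exact hz
  inv_mem' := by
    rintro g ⟨h1, h2⟩
    refine ⟨h2, ?_⟩
    rw [inv_inv]
    exact h1

variable {P : ℂ → Matrix (Fin n) (Fin n) ℂ} {r : ℝ}

lemma rv_an (han : ∀ a b, AnalyticOnNhd ℂ (fun z => P z a b) (Metric.ball 0 r))
    (R : MvPolynomial (Fin n × Fin n) (Polynomial ℂ)) : AnalyticOnNhd ℂ (fun z => rv R z (P z)) (Metric.ball 0 r) := by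
  unfold rv
  induction R using MvPolynomial.induction_on with
  | C a =>
    simp only [MvPolynomial.eval₂_C, Polynomial.coe_evalRingHom]
    intro z _
    exact (AnalyticOnNhd.eval_polynomial (𝕜 := ℂ) (A := ℂ) a) z (Set.mem_univ z)
  | add p q hp hq =>
    simp only [MvPolynomial.eval₂_add]
    exact hp.add hq
  | mul_X p v hp =>
    simp only [MvPolynomial.eval₂_mul, MvPolynomial.eval₂_X]
    exact hp.mul (han v.1 v.2)

lemma mul_an (han : ∀ a b, AnalyticOnNhd ℂ (fun z => P z a b) (Metric.ball 0 r)) (g : Matrix (Fin n) (Fin n) ℂ) :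
    ∀ a b, AnalyticOnNhd ℂ (fun z => (g * P z) a b) (Metric.ball 0 r) := by
  intro a b
  simp only [Matrix.mul_apply]
  intro z hz
  exact Finset.analyticAt_fun_sum _ fun l _ => analyticAt_const.mul (han l b z hz)

lemma zero_ball {f : ℂ → ℂ} (hr : 0 < r) (hf : AnalyticOnNhd ℂ f (Metric.ball 0 r)) (h : ∀ᶠ z in 𝓝 0, f z = 0) {z : ℂ}
    (hz : ‖z‖ < r) : f z = 0 := by
  have h1 := hf.eqOn_zero_of_preconnected_of_eventuallyEq_zero (convex_ball (0 : ℂ) r).isPreconnected
    (Metric.mem_ball_self hr) h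
  exact h1 (by rw [Metric.mem_ball, dist_zero_right]; exact hz)

/-- relations in a disc are inherited -/
lemma Prz_ball (hr : 0 < r) (han : ∀ a b, AnalyticOnNhd ℂ (fun z => P z a b) (Metric.ball 0 r))
    {g : Matrix (Fin n) (Fin n) ℂ} (hg : Prz P g) {R : MvPolynomial (Fin n × Fin n) (Polynomial ℂ)}
    (hR : ∀ z : ℂ, ‖z‖ < r → rv R z (P z) = 0) {z : ℂ} (hz : ‖z‖ < r) : rv R z (g * P z) = 0 := by
  refine zero_ball hr (rv_an (mul_an han g) R) (hg R ?_) hz
  filter_upwards [Metric.ball_mem_nhds (0 : ℂ) hr] with w hw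
  refine hR w ?_
  rwa [Metric.mem_ball, dist_zero_right] at hw

end gal

section several

variable {n k : ℕ} {P : ℂ → Matrix (Fin n) (Fin n) ℂ} {r : ℝ}

open Classical in
/-- some of the matrices are multiplied -/
noncomputable def hS (P : ℂ → Matrix (Fin n) (Fin n) ℂ) (g : Fin k → Matrix (Fin n) (Fin n) ℂ) (S : Finset (Fin k))
    (z : Fin k → ℂ) (v : Σ _ : Fin k, Fin n × Fin n) : ℂ :=
  if v.1 ∈ S then (g v.1 * P (z v.1)) v.2.1 v.2.2 else P (z v.1) v.2.1 v.2.2

/-- relations in several points are inherited -/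
lemma several (hr : 0 < r) (han : ∀ a b, AnalyticOnNhd ℂ (fun z => P z a b) (Metric.ball 0 r))
    {g : Fin k → Matrix (Fin n) (Fin n) ℂ} (hg : ∀ j, Prz P (g j))
    {G : MvPolynomial (Σ _ : Fin k, Fin n × Fin n) (MvPolynomial (Fin k) ℂ)}
    (hG : ∀ z : Fin k → ℂ, (∀ j, ‖z j‖ < r) → G.eval₂ (MvPolynomial.aeval z : MvPolynomial (Fin k) ℂ →ₐ[ℂ] ℂ).toRingHom
      (fun v => P (z v.1) v.2.1 v.2.2) = 0) (S : Finset (Fin k)) :
    ∀ z : Fin k → ℂ, (∀ j, ‖z j‖ < r) → G.eval₂ (MvPolynomial.aeval z : MvPolynomial (Fin k) ℂ →ₐ[ℂ] ℂ).toRingHom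
      (hS P g S z) = 0 := by
  classical
  induction S using Finset.induction_on with
  | empty =>
    intro z hz
    refine Eq.trans ?_ (hG z hz)
    congr 1
  | insert j S hj ih =>
    intro z hz
    -- the polynomial in the matrix at the point `j`
    let φ : MvPolynomial (Fin k) ℂ →+* MvPolynomial (Fin n × Fin n) (Polynomial ℂ) :=
      MvPolynomial.C.comp (MvPolynomial.aeval (fun i => if i = j then Polynomial.X else Polynomial.C (z i)) :
        MvPolynomial (Fin k) ℂ →ₐ[ℂ] Polynomial ℂ).toRingHom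
    let ψ : (Σ _ : Fin k, Fin n × Fin n) → MvPolynomial (Fin n × Fin n) (Polynomial ℂ) := fun v =>
      if v.1 = j then MvPolynomial.X v.2 else MvPolynomial.C (Polynomial.C (hS P g S z v))
    have hR : ∀ (t : ℂ) (Y : Matrix (Fin n) (Fin n) ℂ), rv (G.eval₂ φ ψ) t Y =
        G.eval₂ (MvPolynomial.aeval (Function.update z j t) : MvPolynomial (Fin k) ℂ →ₐ[ℂ] ℂ).toRingHom
          (fun v => if v.1 = j then Y v.2.1 v.2.2 else hS P g S z v) := by
      intro t Y
      unfold rv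
      rw [← MvPolynomial.coe_eval₂Hom (Polynomial.evalRingHom t), MvPolynomial.hom_eval₂]
      congr 1
      · refine MvPolynomial.ringHom_ext (fun a => ?_) fun i => ?_
        · simp [φ]
        · show MvPolynomial.eval₂Hom (Polynomial.evalRingHom t) _ (MvPolynomial.C (MvPolynomial.aeval _ _)) = _
          rw [MvPolynomial.aeval_X, MvPolynomial.eval₂Hom_C]
          show _ = MvPolynomial.aeval (Function.update z j t) (MvPolynomial.X i)
          rw [MvPolynomial.aeval_X]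
          by_cases h : i = j
          · subst h
            simp
          · simp [h]
      · funext v
        show MvPolynomial.eval₂Hom (Polynomial.evalRingHom t) _ (ψ v) = _
        simp only [ψ]
        by_cases h : v.1 = j
        · rw [if_pos h, if_pos h, MvPolynomial.eval₂Hom_X']
        · rw [if_neg h, if_neg h, MvPolynomial.eval₂Hom_C]
          simp
    have key := Prz_ball hr han (hg j) (R := G.eval₂ φ ψ) (fun t ht => by
      rw [hR]
      have h1 := ih (Function.update z j t) (fun i => by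
        by_cases h : i = j
        · subst h
          rw [Function.update_self]
          exact ht
        · rw [Function.update_of_ne h]
          exact hz i)
      rw [← h1]
      congr 1
      funext v
      by_cases h : v.1 = j
      · rw [if_pos h]
        unfold hS
        rw [if_neg (by rw [h]; exact hj), h, Function.update_self]
      · rw [if_neg h]
        unfold hS
        rw [Function.update_of_ne h]) (hz j)
    rw [hR, Function.update_eq_self] at key
    rw [← key]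
    congr 1
    funext v
    obtain ⟨i, v⟩ := v
    by_cases h : i = j
    · subst h
      rw [if_pos rfl]
      unfold hS
      rw [if_pos (Finset.mem_insert_self _ _)]
    · rw [if_neg h]
      unfold hS
      by_cases h2 : i ∈ S
      · rw [if_pos h2, if_pos (Finset.mem_insert_of_mem h2)]
      · rw [if_neg h2, if_neg]
        rw [Finset.mem_insert]
        rintro (h3 | h3)
        · exact h h3
        · exact h2 h3

end several

end Run7.h309.AT
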