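import Pool.Agent.Run7.h309.AT.Core
import Pool.Agent.Run7.h659.TT3

/-!
# Subtorsors for all tuples of fibres: windows
-/

set_option autoImplicit false
set_option linter.unusedSectionVars false

open Matrix Module Filter Topology PowerSeries
open Pool.Agent.Y123.GN Pool.Agent.TH127.PT Pool.Agent.Y113 Pool.Agent.Y123.ST Pool.Agent.Y113.GG
open Pool.Agent.Run7.h659.TT Pool.Agent.Y921.DB

namespace Run7.h309.AT

lemma Ec_an {C : ℝ} (hC : 0 < C) {f : ℚ⟦X⟧} (hf : ∀ m, |((coeff m f : ℚ) : ℝ)| ≤ C ^ (m + 1)) :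
    AnalyticOnNhd ℂ (fun z => Ec f z) (Metric.ball 0 (1 / (2 * C))) := by
  have h1 : DifferentiableOn ℂ (fun z => Ec f z) (Metric.ball 0 (1 / (2 * C))) := by
    unfold Ec
    refine Complex.differentiableOn_tsum_of_summable_norm (u := fun m => C * (1 / 2) ^ m) (summable_geometric_two.mul_left C)
      (fun m => ?_) Metric.isOpen_ball (fun m z hz => ?_)
    · exact ((differentiable_id.pow m).const_mul _).differentiableOn
    · rw [norm_mul, norm_pow, norm_rat]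
      rw [Metric.mem_ball, dist_zero_right] at hz
      calc |((coeff m f : ℚ) : ℝ)| * ‖z‖ ^ m ≤ C ^ (m + 1) * (1 / (2 * C)) ^ m :=
            mul_le_mul (hf m) (pow_le_pow_left₀ (norm_nonneg z) hz.le m) (by positivity) (by positivity)
        _ = C * (1 / 2) ^ m := by
            rw [one_div, one_div, mul_inv, mul_pow, inv_pow C, pow_succ]
            field_simp
  exact h1.analyticOnNhd Metric.isOpen_ball

/-- the conclusion at one tuple -/
def Conc {n k r₁ : ℕ} (D : ℕ) (C₀ : Matrix (Fin r₁) (Fin r₁) ℂ) (P : ℂ → Matrix (Fin n) (Fin n) ℂ) (m : Fin k → ℕ) :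
    Prop :=
  ∀ K : Subfield ℂ, FiniteDimensional ℚ K → finrank ℚ K ≤ D →
  ∀ T : Set (Matrix (IG (Fin r₁) fun _ : Fin k => n) (IG (Fin r₁) fun _ : Fin k => n) ℂ), IsSubtorsor K T →
    EG C₀ (fun j : Fin k => P (1 / (m j : ℂ))) ∈ T →
    ∀ g : Fin k → (Matrix (Fin n) (Fin n) ℂ)ˣ, (∀ j, g j ∈ ⁅Ug (Gz P), Ug (Gz P)⁆) →
      ∀ x ∈ T, EG 1 (fun j => (g j : Matrix (Fin n) (Fin n) ℂ)) * x ∈ T

/-- **all tuples in windows** -/
theorem tup {L : Type} [Field L] [NumberField L] [Algebra L ℂ] {n : ℕ} {f : Polynomial L}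
    {A : Fin n → Fin n → Polynomial L} {Z W : Fin n → Fin n → L⟦X⟧} (h : DatL f A Z W) {n' : ℕ}
    (c : Fin n' × Fin n' → Option (Fin n × Fin n) → ℂ) {P : ℂ → Matrix (Fin n') (Fin n') ℂ} {r₀ : ℝ} (hr₀ : 0 < r₀)
    (hP : ∀ z : ℂ, ‖z‖ < r₀ → ∀ v : Fin n' × Fin n', P z v.1 v.2 = ∑ q, c v q * q.elim 1 fun q => VL (Z q.1 q.2) z) :
    ∃ (r : ℝ) (G : ℕ), 0 < r ∧ (∀ a b, AnalyticOnNhd ℂ (fun z => P z a b) (Metric.ball 0 r)) ∧
      ∀ (k r₁ D : ℕ), ∃ (M : ℕ) (c : ℝ), 0 < c ∧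
      ∀ (C₀ : Matrix (Fin r₁) (Fin r₁) ℂ) (N : ℕ), 1 ≤ N → ∃ S : Finset ℕ, S.card ≤ M ∧
        ∀ m : Fin k → ℕ, (∀ i j, i ≠ j → (G : ℤ) ≤ |(m i : ℤ) - m j|) →
          (∀ j, N ≤ m j ∧ (m j : ℝ) ≤ N + (N : ℝ) ^ c ∧ m j ∉ S) →
          (∀ j, 1 / (m j : ℝ) < r) ∧ Conc D C₀ P m := by
  classical
  obtain ⟨n'', F, B, Z', W', c', r₂, hD, hr₂, hc'⟩ := res_one h c
  obtain ⟨C, hC, hCZ, -⟩ := hD.bound
  have hC0 : 0 < C := by linarith
  have hr3 : 0 < min (min r₀ r₂) (1 / (2 * C)) := lt_min (lt_min hr₀ hr₂) (by positivity)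
  have hpp : ∀ z : ℂ, ‖z‖ < min (min r₀ r₂) (1 / (2 * C)) → ∀ v : Fin n' × Fin n', P z v.1 v.2 = p1 c' Z' z v := by
    intro z hz v
    have h1 := hz.trans_le (min_le_left _ _)
    rw [← hc' z (h1.trans_le (min_le_right _ _)) v]
    exact hP z (h1.trans_le (min_le_left _ _)) v
  obtain ⟨r, hr, hrr, G₀, -, hwin⟩ := win_all hD hr3 (p := fun z v => P z v.1 v.2) (c' := c') hpp
  have han : ∀ a b, AnalyticOnNhd ℂ (fun z => P z a b) (Metric.ball 0 r) := by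
    intro a b
    have h1 : AnalyticOnNhd ℂ (fun z => p1 c' Z' z (a, b)) (Metric.ball 0 r) := by
      unfold p1
      intro z hz
      refine Finset.analyticAt_fun_sum _ fun q _ => analyticAt_const.mul ?_
      rcases q with _ | q
      · exact analyticAt_const
      · refine Ec_an hC0 (fun m => hCZ q.1 q.2 m) z ?_
        exact Metric.ball_subset_ball (hrr.trans (min_le_right _ _)) hz
    refine h1.congr Metric.isOpen_ball fun z hz => ?_
    rw [Metric.mem_ball, dist_zero_right] at hz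
    exact (hpp z (hz.trans_le hrr) (a, b)).symm
  refine ⟨r, G₀, hr, han, fun k r₁ D => ?_⟩
  obtain ⟨d, hd⟩ := stabG (r₁ + ∑ _q : Fin k, n') D
  obtain ⟨M, cc, hcc, hM⟩ := hwin k (fun _ => Fin n' × Fin n') (fun _ v => v) d ((1 + r₁ * r₁ + 1) ^ (d + 1))
  refine ⟨M, cc, hcc, fun C₀ N hN => ?_⟩
  obtain ⟨hbf, hb1⟩ := bot_fin
  obtain ⟨V, hV1, hV2, hKV, hV3⟩ := exists_W' (⊥ : Subfield ℂ) (fun b : Fin r₁ × Fin r₁ => C₀ b.1 b.2)
  obtain ⟨hp1, hp2⟩ := Pool.Agent.Y113.finrank_pow_le V (d + 1)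
  have hVD : Module.finrank ℚ V ≤ 1 + r₁ * r₁ + 1 := by
    refine hV2.trans ?_
    rw [Fintype.card_prod, Fintype.card_fin]
    omega
  have h1V : (1 : ℂ) ∈ V := hKV 1 (⊥ : Subfield ℂ).one_mem
  obtain ⟨S, hSc, hS'⟩ := hM (V ^ (d + 1)) hp1 (hp2.trans (Nat.pow_le_pow_left hVD _)) N hN
  refine ⟨S, hSc, fun m hm1 hm2 => ?_⟩
  obtain ⟨h3, hspec⟩ := hS' m hm1 hm2
  refine ⟨h3, fun K hKf hKD T hT hcT g hg => ?_⟩
  have hmr : ∀ j, ‖(1 / (m j : ℂ))‖ < r := by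
    intro j
    rw [norm_div, norm_one, Complex.norm_natCast]
    exact h3 j
  have hRl : ∀ g : Fin k → (Matrix (Fin n') (Fin n') ℂ)ˣ, (∀ j, g j ∈ Gz P) →
      Rl ⊥ d (EG C₀ (fun j : Fin k => P (1 / (m j : ℂ))))
        (EG 1 (fun j => (g j : Matrix (Fin n') (Fin n') ℂ)) * EG C₀ (fun j : Fin k => P (1 / (m j : ℂ)))) := by
    intro g hg
    have hVr : Vr (V ^ (d + 1)) d (fun v : Σ _ : Fin k, Fin n' × Fin n' => P (1 / (m v.1 : ℂ)) v.2.1 v.2.2)
        (fun v => ((g v.1 : Matrix (Fin n') (Fin n') ℂ) * P (1 / (m v.1 : ℂ))) v.2.1 v.2.2) := by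
      intro F hFd hFV hF0
      obtain ⟨G, hG1, hG2⟩ := hspec F hFd hFV hF0
      have h4 := several hr han (g := fun j => (g j : Matrix (Fin n') (Fin n') ℂ)) (fun j => (hg j).1) hG1 Finset.univ
        (fun j => 1 / (m j : ℂ)) hmr
      have e1 : (algebraMap ℂ ℂ).comp (MvPolynomial.eval fun j => 1 / (m j : ℂ)) =
          (MvPolynomial.aeval (fun j => 1 / (m j : ℂ)) : MvPolynomial (Fin k) ℂ →ₐ[ℂ] ℂ).toRingHom := by
        refine MvPolynomial.ringHom_ext (fun a => ?_) fun i => ?_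
        · simp
        · simp
      have e2 : (fun v : Σ _ : Fin k, Fin n' × Fin n' =>
          ((g v.1 : Matrix (Fin n') (Fin n') ℂ) * P (1 / (m v.1 : ℂ))) v.2.1 v.2.2) =
          hS P (fun j => (g j : Matrix (Fin n') (Fin n') ℂ)) Finset.univ (fun j => 1 / (m j : ℂ)) := by
        funext v
        unfold hS
        rw [if_pos (Finset.mem_univ _)]
      rw [← hG2, MvPolynomial.aeval_def, MvPolynomial.eval₂_map, e1, e2]
      exact h4
    refine Rl_of hKV (PhiG_DC h1V fun a b => hV3 (a, b)) hVr (fun b => PhiG_eval C₀ _ b) fun b => ?_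
    rw [EG_mul, Matrix.one_mul]
    exact PhiG_eval C₀ _ b
  exact hd r₁ k (fun _ => n') le_rfl C₀ _ (fun _ => Gz P) hRl K hKf hKD T hT hcT g hg

end Run7.h309.AT
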